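import Pool.Agent.Lib.MP_37f1e1_gt.Omega

open Set Filter Topology Cardinal

namespace Pool.Agent.Lib.MP_414e75_gt

open Pool.Agent.Lib.MP_37f1e1_gt

variable {X : Type} (E : X → Set X)

/-- Basic clopen sets. -/
def Box (A B : Finset X) : Set X := {x | (∀ a ∈ A, a ∈ E x) ∧ ∀ b ∈ B, b ∉ E x}

/-- `x` is an accumulation point of `z`. -/
def Acc (x : X) (z : Set X) : Prop := ∀ A B : Finset X, x ∈ Box E A B → (z ∩ Box E A B).Infinite

/-- `z` has no accumulation points. -/
def CD (z : Set X) : Prop := ∀ x, ¬ Acc E x z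

variable {E}

lemma CD.mono {z z' : Set X} (h : CD E z) (hz : z' ⊆ z) : CD E z' := by
  intro x hx
  exact h x fun A B hAB => (hx A B hAB).mono (inter_subset_inter_left _ hz)

/-- The axioms. -/
structure Good (E : X → Set X) (rk : X → Om) : Prop where
  inj : Function.Injective E
  count : ∀ x, (E x).Countable
  down : ∀ x, ∀ s ⊆ E x, ∃ x', E x' = s
  rk_lt : ∀ x, ∀ y ∈ E x, rk y < rk x
  full : ∀ D : Set X, D.Countable → CD E D → ∃ x, E x = D
  seg : ∀ x, ∀ y ∈ E x, CD E {y' ∈ E x | rk y' ≤ rk y}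

section A4

variable {rk : X → Om}

/-- The finite families of pairs of finite subsets of a countable set form a countable set. -/
lemma countable_families {S : Set X} (hS : S.Countable) :
    {W : Finset (Finset X × Finset X) | ∀ p ∈ W, (p.1 : Set X) ⊆ S ∧ (p.2 : Set X) ⊆ S}.Countable := by
  classical
  have : Countable S := hS.to_subtype
  let f : Finset (Finset S × Finset S) → Finset (Finset X × Finset X) :=
    fun W => W.image fun p => (p.1.image Subtype.val, p.2.image Subtype.val)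
  refine (countable_range f).mono ?_
  intro W hW
  have key : ∀ A : Finset X, (A : Set X) ⊆ S → ((A.subtype (· ∈ S)).image Subtype.val) = A := by
    intro A hA
    ext a
    simp only [Finset.mem_image, Finset.mem_subtype, Subtype.exists, exists_and_right,
      exists_eq_right]
    constructor
    · rintro ⟨_, h⟩; exact h
    · intro h; exact ⟨hA h, h⟩
  refine ⟨W.image fun p => (p.1.subtype (· ∈ S), p.2.subtype (· ∈ S)), ?_⟩
  simp only [f, Finset.image_image]
  ext q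
  simp only [Finset.mem_image, Function.comp]
  constructor
  · rintro ⟨p, hp, rfl⟩
    rw [key _ (hW p hp).1, key _ (hW p hp).2]
    exact hp
  · intro hq
    refine ⟨q, hq, ?_⟩
    rw [key _ (hW q hq).1, key _ (hW q hq).2]

/-- A sequence of length omega_1 of pairwise disjoint finite sets: initial segments of a suitable
length cannot be met by a set without accumulation points. -/
lemma exists_delta (hcount : ∀ x, (E x).Countable) (hdown : ∀ x, ∀ s ⊆ E x, ∃ x', E x' = s)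
    (F : Om → Finset X) (hF : ∀ i j, i ≠ j → ∀ y ∈ F i, y ∉ F j) (γ : Om) :
    ∃ δ, γ < δ ∧ ∀ z : Set X, (∀ i, γ < i → i < δ → ∃ y ∈ F i, y ∈ z) → ¬ CD E z := by
  classical
  let S : Om → Set X := fun δ => ⋃ i ∈ Iio δ, ⋃ y ∈ F i, E y
  have hSc : ∀ δ, (S δ).Countable := fun δ =>
    (Om_Iio δ).biUnion fun i _ => (F i).countable_toSet.biUnion fun y _ => hcount y
  have hSmono : ∀ δ δ', δ ≤ δ' → S δ ⊆ S δ' := fun δ δ' h =>
    biUnion_subset_biUnion_left (Iio_subset_Iio h)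
  let I : Finset (Finset X × Finset X) → Set Om := fun W =>
    {i | ∀ y ∈ F i, ∃ p ∈ W, y ∈ Box E p.1 p.2}
  have hb : ∀ W, ∃ b, (∃ i ∈ I W, b ≤ i) → ∀ β, ∃ i ∈ I W, β < i := by
    intro W
    by_cases h : ∀ β, ∃ i ∈ I W, β < i
    · exact ⟨γ, fun _ => h⟩
    · push Not at h
      obtain ⟨β, hβ⟩ := h
      obtain ⟨b, hb⟩ := exists_gt_Om β
      refine ⟨b, fun ⟨i, hi, hbi⟩ => ?_⟩
      exact absurd (hb.trans_le hbi) (not_lt.2 (hβ i hi))
  choose b hb using hb
  have hn : ∀ W β, ∃ n, (∀ β, ∃ i ∈ I W, β < i) → n ∈ I W ∧ β < n := by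
    intro W β
    by_cases h : ∀ β, ∃ i ∈ I W, β < i
    · obtain ⟨i, hi, hβi⟩ := h β
      exact ⟨i, fun _ => ⟨hi, hβi⟩⟩
    · exact ⟨γ, fun h' => absurd h' h⟩
  choose n hn using hn
  have hg : ∀ α : Om, ∃ α', α < α' ∧
      ∀ W : Finset (Finset X × Finset X), (∀ p ∈ W, (p.1 : Set X) ⊆ S α ∧ (p.2 : Set X) ⊆ S α) →
        b W < α' ∧ n W α < α' := by
    intro α
    have h1 := countable_families (hSc α)
    obtain ⟨α', hα'⟩ := exists_strict_bound (((h1.image b).union (h1.image fun W => n W α)).insert α)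
    exact ⟨α', hα' α (Or.inl rfl), fun W hW => ⟨hα' _ (Or.inr (Or.inl ⟨W, hW, rfl⟩)),
      hα' _ (Or.inr (Or.inr ⟨W, hW, rfl⟩))⟩⟩
  choose g hg1 hg2 using hg
  let s : ℕ → Om := fun k => g^[k] γ
  have hs : ∀ k, s (k + 1) = g (s k) := fun k => Function.iterate_succ_apply' g k γ
  have hslt : ∀ k, s k < s (k + 1) := fun k => by rw [hs]; exact hg1 _
  have hsmono : StrictMono s := strictMono_nat_of_lt_succ hslt
  obtain ⟨u, hu⟩ := exists_strict_bound (countable_range s)
  obtain ⟨δ, hδ⟩ := exists_isLUB (S := range s) ⟨u, fun x hx => (hu x hx).le⟩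
  have hsδ : ∀ k, s k < δ := fun k => (hslt k).trans_le (hδ.1 ⟨k + 1, rfl⟩)
  have hδs : ∀ i < δ, ∃ k, i < s k := by
    intro i hi
    by_contra hcon
    push Not at hcon
    exact absurd (hδ.2 (by rintro _ ⟨k, rfl⟩; exact hcon k)) (not_le.2 hi)
  -- finite subsets of `S δ`
  have hSδ : ∀ A : Finset X, (A : Set X) ⊆ S δ → ∃ k, (A : Set X) ⊆ S (s k) := by
    intro A
    induction A using Finset.induction_on with
    | empty => intro _; exact ⟨0, by simp⟩
    | insert a A _ ih =>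
      intro hA
      rw [Finset.coe_insert, insert_subset_iff] at hA
      obtain ⟨k, hk⟩ := ih hA.2
      obtain ⟨i, hi, hia⟩ := mem_iUnion₂.1 hA.1
      obtain ⟨l, hl⟩ := hδs i hi
      refine ⟨max k l, ?_⟩
      rw [Finset.coe_insert, insert_subset_iff]
      exact ⟨mem_iUnion₂.2 ⟨i, hl.trans_le (hsmono.monotone (le_max_right k l)), hia⟩,
        hk.trans (hSmono _ _ (hsmono.monotone (le_max_left k l)))⟩
  have hSW : ∀ W : Finset (Finset X × Finset X),
      (∀ p ∈ W, (p.1 : Set X) ⊆ S δ ∧ (p.2 : Set X) ⊆ S δ) →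
      ∃ k, ∀ p ∈ W, (p.1 : Set X) ⊆ S (s k) ∧ (p.2 : Set X) ⊆ S (s k) := by
    intro W
    induction W using Finset.induction_on with
    | empty => intro _; exact ⟨0, by simp⟩
    | insert q W _ ih =>
      intro hW
      obtain ⟨k, hk⟩ := ih fun p hp => hW p (Finset.mem_insert_of_mem hp)
      obtain ⟨l, hl⟩ := hSδ q.1 (hW q (Finset.mem_insert_self _ _)).1
      obtain ⟨m, hm⟩ := hSδ q.2 (hW q (Finset.mem_insert_self _ _)).2
      refine ⟨max k (max l m), fun p hp => ?_⟩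
      rcases Finset.mem_insert.1 hp with rfl | hp
      · exact ⟨hl.trans (hSmono _ _ (hsmono.monotone ((le_max_left l m).trans (le_max_right k _)))),
          hm.trans (hSmono _ _ (hsmono.monotone ((le_max_right l m).trans (le_max_right k _))))⟩
      · exact ⟨(hk p hp).1.trans (hSmono _ _ (hsmono.monotone (le_max_left k _))),
          (hk p hp).2.trans (hSmono _ _ (hsmono.monotone (le_max_left k _)))⟩
  refine ⟨δ, hsδ 0, fun z hz hCD => ?_⟩
  -- the truncated points
  choose t ht using fun y : X => hdown y (E y ∩ S δ) inter_subset_left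
  have hA : ∀ y, ∃ A B : Finset X, t y ∈ Box E A B ∧ (z ∩ Box E A B).Finite := by
    intro y
    have := hCD (t y)
    unfold Acc at this
    push Not at this
    obtain ⟨A, B, h1, h2⟩ := this
    exact ⟨A, B, h1, h2⟩
  choose A B hAB hfin using hA
  let W : Finset (Finset X × Finset X) := (F δ).image fun y => (A y, (B y).filter (· ∈ S δ))
  have hWS : ∀ p ∈ W, (p.1 : Set X) ⊆ S δ ∧ (p.2 : Set X) ⊆ S δ := by
    intro p hp
    obtain ⟨y, hy, rfl⟩ := Finset.mem_image.1 hp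
    constructor
    · intro a ha
      have := (hAB y).1 a ha
      rw [ht] at this
      exact this.2
    · intro a ha
      exact (Finset.mem_filter.1 ha).2
  have hδI : δ ∈ I W := by
    intro y hy
    refine ⟨_, Finset.mem_image_of_mem _ hy, ?_, ?_⟩
    · intro a ha
      have := (hAB y).1 a ha
      rw [ht] at this
      exact this.1
    · intro a ha haE
      have h1 := (Finset.mem_filter.1 ha)
      have := (hAB y).2 a h1.1
      rw [ht] at this
      exact this ⟨haE, h1.2⟩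
  obtain ⟨k0, hk0⟩ := hSW W hWS
  have hk : ∀ k, k0 ≤ k → ∀ p ∈ W, (p.1 : Set X) ⊆ S (s k) ∧ (p.2 : Set X) ⊆ S (s k) := by
    intro k hk p hp
    exact ⟨(hk0 p hp).1.trans (hSmono _ _ (hsmono.monotone hk)),
      (hk0 p hp).2.trans (hSmono _ _ (hsmono.monotone hk))⟩
  have hunb : ∀ β, ∃ i ∈ I W, β < i := by
    apply hb W
    refine ⟨δ, hδI, ?_⟩
    exact ((hg2 (s k0) W (hk k0 le_rfl)).1.le).trans ((hs k0 ▸ (hsδ (k0 + 1)).le))
  -- infinitely many indices
  let i : ℕ → Om := fun k => n W (s (k0 + k))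
  have hi1 : ∀ k, i k ∈ I W := fun k => (hn W _ hunb).1
  have hi2 : ∀ k, s (k0 + k) < i k := fun k => (hn W _ hunb).2
  have hi3 : ∀ k, i k < s (k0 + k + 1) := fun k => by
    rw [hs]; exact (hg2 (s (k0 + k)) W (hk _ (by omega))).2
  have himono : StrictMono i := strictMono_nat_of_lt_succ fun k =>
    (hi3 k).trans (hi2 (k + 1))
  have hiγ : ∀ k, γ < i k := fun k => (hsmono.monotone (Nat.zero_le (k0 + k))).trans_lt (hi2 k)
  have hiδ : ∀ k, i k < δ := fun k => (hi3 k).trans (hsδ _)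
  choose y hyF hyz using fun k => hz (i k) (hiγ k) (hiδ k)
  have hyinj : Function.Injective y := by
    intro k l hkl
    by_contra hne
    have hne' : i k ≠ i l := fun h => hne (himono.injective h)
    exact hF _ _ hne' (y k) (hyF k) (hkl ▸ hyF l)
  have hmem : ∀ k, y k ∈ ⋃ y' ∈ F δ, z ∩ Box E (A y') (B y') := by
    intro k
    obtain ⟨p, hp, hyp⟩ := hi1 k (y k) (hyF k)
    obtain ⟨y', hy', rfl⟩ := Finset.mem_image.1 hp
    refine mem_biUnion (Finset.mem_coe.2 hy') ⟨hyz k, hyp.1, ?_⟩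
    intro b hb hbE
    have hbS : b ∈ S δ := mem_iUnion₂.2 ⟨i k, hiδ k, mem_iUnion₂.2 ⟨y k, hyF k, hbE⟩⟩
    exact hyp.2 b (Finset.mem_filter.2 ⟨hb, hbS⟩) hbE
  have hfinite : (⋃ y' ∈ F δ, z ∩ Box E (A y') (B y')).Finite :=
    (F δ).finite_toSet.biUnion fun y' _ => hfin y'
  exact Set.infinite_of_injective_forall_mem hyinj hmem hfinite

/-- Sequences of length omega_1 of pairwise disjoint finite sets whose ranks are controlled
cannot be met by a point. -/
lemma exists_countable_unmet (hG : Good E rk) (F : Om → Finset X)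
    (hF : ∀ i j, i ≠ j → ∀ y ∈ F i, y ∉ F j) (ρ : Finset Om)
    (hρ : ∀ i, ∀ y ∈ F i, rk y ∈ ρ ∨ i < rk y) :
    ∃ δ, ∀ x, ∃ i < δ, ∀ y ∈ F i, y ∉ E x := by
  classical
  obtain ⟨δ₀, -, hδ₀⟩ := exists_delta hG.count hG.down F hF (Classical.arbitrary Om)
  obtain ⟨δ₁, hδ₁⟩ := exists_strict_bound
    ((((Om_Iio δ₀).biUnion fun i _ => (F i).countable_toSet).image rk).insert δ₀)
  have hδ₁' : ∀ i < δ₀, ∀ y ∈ F i, rk y < δ₁ := fun i hi y hy =>
    hδ₁ _ (Or.inr ⟨y, mem_biUnion hi hy, rfl⟩)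
  obtain ⟨δ, hδ, hδ'⟩ := exists_delta hG.count hG.down (fun i => (F i).filter (rk · ∈ ρ))
    (fun i j hij y hy hy' => hF i j hij y (Finset.mem_filter.1 hy).1 (Finset.mem_filter.1 hy').1) δ₁
  refine ⟨δ, fun x => ?_⟩
  by_contra hcon
  push Not at hcon
  have hδ₀δ : δ₀ < δ := (hδ₁ δ₀ (Or.inl rfl)).trans hδ
  -- all elements of `E x` have rank less than `δ₁`
  have hrk : ∀ y ∈ E x, rk y < δ₁ := by
    intro y hy
    by_contra hyδ
    apply hδ₀ {y' ∈ E x | rk y' ≤ rk y}
    · intro i _ hi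
      obtain ⟨y', hy', hy'x⟩ := hcon i (hi.trans hδ₀δ)
      exact ⟨y', hy', hy'x, (hδ₁' i hi y' hy').le.trans (not_lt.1 hyδ)⟩
    · exact hG.seg x y hy
  apply hδ' {y ∈ E x | rk y ∈ ρ}
  · intro i hi hiδ
    obtain ⟨y, hy, hyx⟩ := hcon i hiδ
    rcases hρ i y hy with h | h
    · exact ⟨y, Finset.mem_filter.2 ⟨hy, h⟩, hyx, h⟩
    · exact absurd (hi.trans h) (not_lt.2 (hrk y hyx).le)
  · by_cases hne : (ρ.filter fun a => ∃ y ∈ E x, rk y = a).Nonempty
    · obtain ⟨hm1, y, hy, hym⟩ := Finset.mem_filter.1 (Finset.max'_mem _ hne)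
      refine (hG.seg x y hy).mono ?_
      rintro y' ⟨hy', hy'ρ⟩
      refine ⟨hy', ?_⟩
      rw [hym]
      exact Finset.le_max' _ _ (Finset.mem_filter.2 ⟨hy'ρ, y', hy', rfl⟩)
    · rw [Finset.not_nonempty_iff_eq_empty, Finset.filter_eq_empty_iff] at hne
      intro x' hx'
      have h1 := hx' ∅ ∅ ⟨by simp, by simp⟩
      have h2 : {y ∈ E x | rk y ∈ ρ} = ∅ := by
        ext y
        simp only [mem_ofPred_eq, mem_empty_iff_false, iff_false]
        rintro ⟨hy, hyρ⟩
        exact hne hyρ ⟨y, hy, rfl⟩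
      rw [h2, empty_inter] at h1
      exact h1 finite_empty

end A4

section Reflection

variable {rk : X → Om}

/-- Reflection for families of finite sets of bounded size. -/
lemma reflection_aux (hG : Good E rk) (m : ℕ) : ∀ 𝓕 : Set (Finset X), (∀ F ∈ 𝓕, F.card ≤ m) →
    ∃ 𝓕₀ ⊆ 𝓕, 𝓕₀.Countable ∧
      ∀ x, (∀ F ∈ 𝓕₀, ∃ y ∈ F, y ∈ E x) → ∀ F ∈ 𝓕, ∃ y ∈ F, y ∈ E x := by
  classical
  induction m with
  | zero =>
    intro 𝓕 h𝓕
    refine ⟨𝓕, Subset.rfl, ?_, fun x h => h⟩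
    refine (countable_singleton (∅ : Finset X)).mono ?_
    intro F hF
    exact Finset.card_eq_zero.1 (Nat.le_zero.1 (h𝓕 F hF))
  | succ m ih =>
    intro 𝓕 h𝓕
    by_cases hcm : ∃ e : Set X, e.Countable ∧ ∀ F ∈ 𝓕, ∃ a ∈ F, a ∈ e
    · obtain ⟨e, he, hmeet⟩ := hcm
      -- the families after removal of a point
      have h1 : ∀ a : X, ∃ 𝓖 : Set (Finset X), 𝓖 ⊆ {G | a ∉ G ∧ insert a G ∈ 𝓕} ∧ 𝓖.Countable ∧
          ∀ x, (∀ F ∈ 𝓖, ∃ y ∈ F, y ∈ E x) →
            ∀ F ∈ {G | a ∉ G ∧ insert a G ∈ 𝓕}, ∃ y ∈ F, y ∈ E x := by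
        intro a
        apply ih
        rintro G ⟨haG, hG'⟩
        have := h𝓕 _ hG'
        rw [Finset.card_insert_of_notMem haG] at this
        omega
      choose 𝓖 h𝓖1 h𝓖2 h𝓖3 using h1
      refine ⟨⋃ a ∈ e, (insert a) '' 𝓖 a, ?_, he.biUnion fun a _ => (h𝓖2 a).image _, ?_⟩
      · intro F hF
        obtain ⟨a, ha, G, hG', rfl⟩ := mem_iUnion₂.1 hF
        exact (h𝓖1 a hG').2
      · intro x hx F hF
        obtain ⟨a, haF, hae⟩ := hmeet F hF
        by_cases hax : a ∈ E x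
        · exact ⟨a, haF, hax⟩
        · have h2 : ∀ G ∈ 𝓖 a, ∃ y ∈ G, y ∈ E x := by
            intro G hG'
            obtain ⟨y, hy, hyx⟩ := hx (insert a G) (mem_iUnion₂.2 ⟨a, hae, G, hG', rfl⟩)
            rcases Finset.mem_insert.1 hy with rfl | hy
            · exact absurd hyx hax
            · exact ⟨y, hy, hyx⟩
          obtain ⟨y, hy, hyx⟩ := h𝓖3 a x h2 (F.erase a)
            ⟨Finset.notMem_erase a F, by rw [Finset.insert_erase haF]; exact hF⟩
          exact ⟨y, Finset.mem_of_mem_erase hy, hyx⟩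
    · -- no countable set meets all members
      let cm : Finset Om → Prop := fun ρ =>
        ∃ e : Set X, e.Countable ∧ ∀ F ∈ 𝓕, ρ ⊆ F.image rk → ∃ a ∈ F, a ∈ e
      have hρ : ∃ ρ : Finset Om, ¬ cm ρ ∧ ∀ a, a ∉ ρ → cm (insert a ρ) := by
        by_contra hcon
        push Not at hcon
        have h2 : ∀ k : ℕ, ∃ ρ : Finset Om, ρ.card = k ∧ ¬ cm ρ := by
          intro k
          induction k with
          | zero =>
            refine ⟨∅, rfl, ?_⟩
            rintro ⟨e, he, h⟩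
            exact hcm ⟨e, he, fun F hF => h F hF (Finset.empty_subset _)⟩
          | succ k ihk =>
            obtain ⟨ρ, h3, h4⟩ := ihk
            obtain ⟨a, h5, h6⟩ := hcon ρ h4
            exact ⟨insert a ρ, by rw [Finset.card_insert_of_notMem h5, h3], h6⟩
        obtain ⟨ρ, h3, h4⟩ := h2 (m + 2)
        apply h4
        refine ⟨∅, countable_empty, fun F hF hρF => ?_⟩
        have h5 := Finset.card_le_card hρF
        have h6 := Finset.card_image_le (s := F) (f := rk)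
        have h7 := h𝓕 F hF
        omega
      obtain ⟨ρ, hρ1, hρ2⟩ := hρ
      have he : ∀ a : Om, ∃ e : Set X, e.Countable ∧ (a ∉ ρ →
          ∀ F ∈ 𝓕, insert a ρ ⊆ F.image rk → ∃ c ∈ F, c ∈ e) := by
        intro a
        by_cases ha : a ∈ ρ
        · exact ⟨∅, countable_empty, fun h => absurd ha h⟩
        · obtain ⟨e, he, h⟩ := hρ2 a ha
          exact ⟨e, he, fun _ => h⟩
      choose e he1 he2 using he
      have hstep : ∀ (i : Om) (f : ∀ j, j < i → Finset X), ∃ F ∈ 𝓕, ρ ⊆ F.image rk ∧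
          (∀ j (hj : j < i), ∀ y ∈ F, y ∉ f j hj) ∧ ∀ a ≤ i, ∀ y ∈ F, y ∉ e a := by
        intro i f
        by_contra hcon
        push Not at hcon
        apply hρ1
        have hIc : Countable (Iio i) := (Om_Iio i).to_subtype
        refine ⟨(⋃ j : Iio i, (f j.1 j.2 : Set X)) ∪ ⋃ a ∈ Iic i, e a, ?_, ?_⟩
        · exact (countable_iUnion fun j : Iio i => (f j.1 j.2).countable_toSet).union
            ((Om_Iic i).biUnion fun a _ => he1 a)
        · intro F hF hρF
          by_cases h8 : ∀ j (hj : j < i), ∀ y ∈ F, y ∉ f j hj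
          · obtain ⟨a, hai, y, hy, hya⟩ := hcon F hF hρF h8
            exact ⟨y, hy, Or.inr (mem_biUnion hai hya)⟩
          · push Not at h8
            obtain ⟨j, hj, y, hy, hyj⟩ := h8
            exact ⟨y, hy, Or.inl (mem_iUnion.2 ⟨⟨j, hj⟩, hyj⟩)⟩
      choose! st hst1 hst2 hst3 hst4 using hstep
      let F : Om → Finset X := (wellFounded_lt : WellFounded ((· < ·) : Om → Om → Prop)).fix st
      have hFeq : ∀ i, F i = st i fun j _ => F j := fun i =>
        (wellFounded_lt : WellFounded ((· < ·) : Om → Om → Prop)).fix_eq st i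
      have hF1 : ∀ i, F i ∈ 𝓕 := fun i => by rw [hFeq]; exact hst1 _ _
      have hF2 : ∀ i, ρ ⊆ (F i).image rk := fun i => by rw [hFeq]; exact hst2 _ _
      have hF3 : ∀ i j, j < i → ∀ y ∈ F i, y ∉ F j := by
        intro i j hj y hy
        rw [hFeq i] at hy
        exact hst3 i _ j hj y hy
      have hF4 : ∀ i, ∀ a ≤ i, ∀ y ∈ F i, y ∉ e a := by
        intro i a ha y hy
        rw [hFeq i] at hy
        exact hst4 i _ a ha y hy
      have hdisj : ∀ i j, i ≠ j → ∀ y ∈ F i, y ∉ F j := by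
        intro i j hij y hy hyj
        rcases lt_or_gt_of_ne hij with h | h
        · exact hF3 j i h y hyj hy
        · exact hF3 i j h y hy hyj
      have hranks : ∀ i, ∀ y ∈ F i, rk y ∈ ρ ∨ i < rk y := by
        intro i y hy
        by_contra hcon
        push Not at hcon
        obtain ⟨c, hc, hce⟩ := he2 (rk y) hcon.1 (F i) (hF1 i)
          (Finset.insert_subset (Finset.mem_image_of_mem _ hy) (hF2 i))
        exact hF4 i (rk y) hcon.2 c hc hce
      obtain ⟨δ, hδ⟩ := exists_countable_unmet hG F hdisj ρ hranks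
      refine ⟨F '' Iio δ, ?_, (Om_Iio δ).image _, ?_⟩
      · rintro _ ⟨i, -, rfl⟩
        exact hF1 i
      · intro x hx
        obtain ⟨i, hi, h9⟩ := hδ x
        obtain ⟨y, hy, hyx⟩ := hx (F i) ⟨i, hi, rfl⟩
        exact absurd hyx (h9 y hy)

/-- Reflection for arbitrary families of finite sets. -/
lemma reflection (hG : Good E rk) (𝓕 : Set (Finset X)) :
    ∃ 𝓕₀ ⊆ 𝓕, 𝓕₀.Countable ∧
      ∀ x, (∀ F ∈ 𝓕₀, ∃ y ∈ F, y ∈ E x) → ∀ F ∈ 𝓕, ∃ y ∈ F, y ∈ E x := by
  have h := fun m : ℕ => reflection_aux hG m {F ∈ 𝓕 | F.card ≤ m} fun F hF => hF.2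
  choose 𝓖 h1 h2 h3 using h
  refine ⟨⋃ m, 𝓖 m, iUnion_subset fun m => (h1 m).trans (sep_subset _ _), countable_iUnion h2, ?_⟩
  intro x hx F hF
  exact h3 F.card x (fun G hG' => hx G (mem_iUnion.2 ⟨_, hG'⟩)) F ⟨hF, le_rfl⟩

/-- The countable subcover property for covers by basic sets. -/
lemma countable_subcover (hG : Good E rk) (𝓞 : Set (Finset X × Finset X))
    (h𝓞 : ∀ x, ∃ p ∈ 𝓞, x ∈ Box E p.1 p.2) :
    ∃ 𝓞₀ ⊆ 𝓞, 𝓞₀.Countable ∧ ∀ x, ∃ p ∈ 𝓞₀, x ∈ Box E p.1 p.2 := by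
  classical
  have h := fun A : Finset X => reflection hG {B | (A, B) ∈ 𝓞}
  choose 𝓖 h1 h2 h3 using h
  -- closing off
  let next : Set X → Set X := fun C =>
    C ∪ ⋃ A ∈ {A : Finset X | (A : Set X) ⊆ C}, ⋃ B ∈ 𝓖 A, (B : Set X)
  have hfinc : ∀ C : Set X, C.Countable → {A : Finset X | (A : Set X) ⊆ C}.Countable := by
    intro C hC
    have h4 := countable_families hC
    have h5 : {A : Finset X | (A : Set X) ⊆ C} ⊆ (fun W : Finset (Finset X × Finset X) =>
        W.biUnion fun p => p.1) '' {W | ∀ p ∈ W, (p.1 : Set X) ⊆ C ∧ (p.2 : Set X) ⊆ C} := by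
      intro A hA
      refine ⟨{(A, ∅)}, ?_, by simp⟩
      intro p hp
      rw [Finset.mem_singleton] at hp
      rw [hp]
      exact ⟨hA, by simp⟩
    exact (h4.image _).mono h5
  have hnext : ∀ C : Set X, C.Countable → (next C).Countable := fun C hC =>
    hC.union ((hfinc C hC).biUnion fun A _ => (h2 A).biUnion fun B _ => B.countable_toSet)
  let Cs : ℕ → Set X := fun k => next^[k] ∅
  have hCs : ∀ k, Cs (k + 1) = next (Cs k) := fun k => Function.iterate_succ_apply' next k ∅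
  have hCsc : ∀ k, (Cs k).Countable := by
    intro k
    induction k with
    | zero => exact countable_empty
    | succ k ih => rw [hCs]; exact hnext _ ih
  have hCmono : Monotone Cs := monotone_nat_of_le_succ fun k => by
    rw [hCs]; exact subset_union_left
  let C : Set X := ⋃ k, Cs k
  have hCc : C.Countable := countable_iUnion hCsc
  have hCfin : ∀ A : Finset X, (A : Set X) ⊆ C → ∃ k, (A : Set X) ⊆ Cs k := by
    intro A
    induction A using Finset.induction_on with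
    | empty => intro _; exact ⟨0, by simp⟩
    | insert a A _ ih =>
      intro hA
      rw [Finset.coe_insert, insert_subset_iff] at hA
      obtain ⟨k, hk⟩ := ih hA.2
      obtain ⟨l, hl⟩ := mem_iUnion.1 hA.1
      refine ⟨max k l, ?_⟩
      rw [Finset.coe_insert, insert_subset_iff]
      exact ⟨hCmono (le_max_right k l) hl, hk.trans (hCmono (le_max_left k l))⟩
  have hCclosed : ∀ A : Finset X, (A : Set X) ⊆ C → ∀ B ∈ 𝓖 A, (B : Set X) ⊆ C := by
    intro A hA B hB
    obtain ⟨k, hk⟩ := hCfin A hA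
    refine Subset.trans ?_ (subset_iUnion Cs (k + 1))
    rw [hCs]
    refine Subset.trans ?_ subset_union_right
    intro b hb
    exact mem_biUnion (show A ∈ {A : Finset X | (A : Set X) ⊆ Cs k} from hk) (mem_biUnion hB hb)
  refine ⟨⋃ A ∈ {A : Finset X | (A : Set X) ⊆ C}, (fun B => (A, B)) '' 𝓖 A, ?_, ?_, ?_⟩
  · intro p hp
    obtain ⟨A, hA, B, hB, rfl⟩ := mem_iUnion₂.1 hp
    exact h1 A hB
  · exact (hfinc C hCc).biUnion fun A _ => (h2 A).image _
  · intro x
    obtain ⟨x', hx'⟩ := hG.down x (E x ∩ C) inter_subset_left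
    obtain ⟨⟨A, B⟩, hAB, hx1, hx2⟩ := h𝓞 x'
    rw [hx'] at hx1 hx2
    have hAC : (A : Set X) ⊆ C := fun a ha => (hx1 a ha).2
    have h6 : ∃ B₀ ∈ 𝓖 A, ∀ y ∈ B₀, y ∉ E x' := by
      by_contra hcon
      push Not at hcon
      obtain ⟨y, hy, hyx⟩ := h3 A x' hcon B hAB
      rw [hx'] at hyx
      exact hx2 y hy hyx
    obtain ⟨B₀, hB₀, h7⟩ := h6
    refine ⟨(A, B₀), mem_biUnion (show A ∈ {A : Finset X | (A : Set X) ⊆ C} from hAC)
      ⟨B₀, hB₀, rfl⟩, fun a ha => (hx1 a ha).1, fun b hb hbx => ?_⟩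
    apply h7 b hb
    rw [hx']
    exact ⟨hbx, hCclosed A hAC B₀ hB₀ hb⟩

end Reflection

end Pool.Agent.Lib.MP_414e75_gt
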