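import Pool.Agent.Lib.MP_414e75_gt.Abstract

open Set Cardinal

namespace Pool.Agent.Lib.MP_414e75_gt

open Pool.Agent.Lib.MP_37f1e1_gt

/-- Basic sets of ZFC sets. -/
def ZBox (A B : Finset ZFSet.{0}) : Set ZFSet.{0} := {x | (∀ a ∈ A, a ∈ x) ∧ ∀ b ∈ B, b ∉ x}

/-- Accumulation points. -/
def ZAcc (x : ZFSet.{0}) (w : Set ZFSet.{0}) : Prop :=
  ∀ A B : Finset ZFSet.{0}, x ∈ ZBox A B → (w ∩ ZBox A B).Infinite

/-- The points of the space: countable sets `z` of points such that for every `y ∈ z` the set of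
elements of `z` of rank at most the rank of `y` is closed discrete. -/
def Gd (z : ZFSet.{0}) : Prop :=
  {y | y ∈ z}.Countable ∧ (∀ y, ∀ _h : y ∈ z, Gd y) ∧
    ∀ y, ∀ _h : y ∈ z, ∀ x : ZFSet.{0}, ∀ _hx : x.rank ≤ y.rank, Gd x →
      ¬ ZAcc x {y' | y' ∈ z ∧ y'.rank ≤ y.rank}
termination_by z.rank
decreasing_by
  · exact ZFSet.rank_lt_of_mem _h
  · exact _hx.trans_lt (ZFSet.rank_lt_of_mem _h)

lemma Gd_iff (z : ZFSet.{0}) : Gd z ↔ {y | y ∈ z}.Countable ∧ (∀ y ∈ z, Gd y) ∧
    ∀ y ∈ z, ∀ x : ZFSet.{0}, x.rank ≤ y.rank → Gd x →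
      ¬ ZAcc x {y' | y' ∈ z ∧ y'.rank ≤ y.rank} := by
  rw [Gd]

lemma Gd.sub {z w : ZFSet.{0}} (hz : Gd z) (h : w ⊆ z) : Gd w := by
  rw [Gd_iff] at hz ⊢
  obtain ⟨h1, h2, h3⟩ := hz
  refine ⟨h1.mono fun y hy => h hy, fun y hy => h2 y (h hy), fun y hy x hx hGx hacc => ?_⟩
  refine h3 y (h hy) x hx hGx fun A B hAB => (hacc A B hAB).mono ?_
  exact inter_subset_inter_left _ fun y' hy' => ⟨h hy'.1, hy'.2⟩

lemma Gd.rank_lt : ∀ z : ZFSet.{0}, Gd z → z.rank < (ℵ₁ : Cardinal.{0}).ord := by
  intro z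
  induction z using ZFSet.inductionOn with
  | _ z ih =>
    intro hz
    rw [Gd_iff] at hz
    obtain ⟨h1, h2, -⟩ := hz
    have : Countable {y | y ∈ z} := h1.to_subtype
    obtain ⟨a, ha⟩ := exists_strict_bound (countable_range fun y : {y | y ∈ z} =>
      (Ordinal.ToType.mk ⟨y.1.rank, ih y.1 y.2 (h2 y.1 y.2)⟩ : Om))
    have ha2 : (Ordinal.ToType.toOrd a).1 < (ℵ₁ : Cardinal.{0}).ord := (Ordinal.ToType.toOrd a).2
    refine lt_of_le_of_lt ?_ ha2
    rw [ZFSet.rank_le_iff]
    intro y hy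
    have h3 := ha _ ⟨⟨y, hy⟩, rfl⟩
    have h4 := (Ordinal.ToType.mk.symm.lt_iff_lt).2 h3
    rw [OrderIso.symm_apply_apply] at h4
    exact h4

instance : Small.{0} {z : ZFSet.{0} // Gd z} := by
  let V : ZFSet.{0} := ZFSet.vonNeumann (ℵ₁ : Cardinal.{0}).ord
  have : Small.{0} V := ZFSet.small_coe V
  exact small_of_injective (f := fun z : {z : ZFSet.{0} // Gd z} =>
    (⟨z.1, ZFSet.mem_vonNeumann.2 (Gd.rank_lt z.1 z.2)⟩ : V)) (by
      intro x y hxy
      have h1 : x.1 = y.1 := congrArg (fun v : V => v.1) hxy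
      exact Subtype.ext h1)

/-- The type of points. -/
abbrev XX : Type := Shrink.{0} {z : ZFSet.{0} // Gd z}

/-- The set corresponding to a point. -/
noncomputable def val (s : XX) : ZFSet.{0} := ((equivShrink _).symm s).1

lemma val_gd (s : XX) : Gd (val s) := ((equivShrink _).symm s).2

lemma val_inj : Function.Injective val := by
  intro s t h
  exact (equivShrink _).symm.injective (Subtype.ext h)

lemma exists_val {z : ZFSet.{0}} (hz : Gd z) : ∃ s, val s = z :=
  ⟨equivShrink _ ⟨z, hz⟩, by simp [val]⟩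

lemma exists_val_of_mem {z : ZFSet.{0}} {s : XX} (hz : z ∈ val s) : ∃ t, val t = z :=
  exists_val (((Gd_iff _).1 (val_gd s)).2.1 z hz)

/-- The elements of a point. -/
def EE (s : XX) : Set XX := {t | val t ∈ val s}

/-- The rank. -/
noncomputable def rkk (s : XX) : Om :=
  Ordinal.ToType.mk ⟨(val s).rank, Gd.rank_lt _ (val_gd s)⟩

lemma rkk_le {s t : XX} : rkk s ≤ rkk t ↔ (val s).rank ≤ (val t).rank := by
  unfold rkk
  rw [OrderIso.le_iff_le]
  rfl

lemma rkk_lt {s t : XX} : rkk s < rkk t ↔ (val s).rank < (val t).rank := by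
  unfold rkk
  rw [OrderIso.lt_iff_lt]
  rfl

theorem good : Good EE rkk where
  inj := by
    intro s s' h
    apply val_inj
    ext y
    constructor
    · intro hy
      obtain ⟨t, rfl⟩ := exists_val_of_mem hy
      have : t ∈ EE s := hy
      rw [h] at this
      exact this
    · intro hy
      obtain ⟨t, rfl⟩ := exists_val_of_mem hy
      have : t ∈ EE s' := hy
      rw [← h] at this
      exact this
  count := by
    intro s
    exact ((Gd_iff _).1 (val_gd s)).1.preimage_of_injOn (f := val) val_inj.injOn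
  down := by
    intro x s hs
    let w : ZFSet.{0} := ZFSet.sep (fun y => ∃ t ∈ s, val t = y) (val x)
    have hw : Gd w := (val_gd x).sub fun y hy => (ZFSet.mem_sep.1 hy).1
    obtain ⟨x', hx'⟩ := exists_val hw
    refine ⟨x', ?_⟩
    ext t
    change val t ∈ val x' ↔ t ∈ s
    rw [hx', ZFSet.mem_sep]
    constructor
    · rintro ⟨-, t', ht', h⟩
      rw [← val_inj h]; exact ht'
    · intro ht
      exact ⟨hs ht, t, ht, rfl⟩
  rk_lt := fun x y hy => rkk_lt.2 (ZFSet.rank_lt_of_mem hy)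
  full := by
    classical
    intro D hD hCD
    let w : ZFSet.{0} := ZFSet.range fun t : D => val t.1
    have hw : Gd w := by
      rw [Gd_iff]
      refine ⟨?_, ?_, ?_⟩
      · have : Countable D := hD.to_subtype
        have h1 : {y | y ∈ w} = Set.range fun t : D => val t.1 := by
          ext y; simp [w]
        rw [h1]
        exact countable_range _
      · intro y hy
        obtain ⟨t, rfl⟩ := ZFSet.mem_range.1 hy
        exact val_gd _
      · intro y hy x hx hGx hacc
        obtain ⟨x₀, rfl⟩ := exists_val hGx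
        have h1 := hCD x₀
        unfold Acc at h1
        push Not at h1
        obtain ⟨A, B, h2, h3⟩ := h1
        have h4 := hacc (A.image val) (B.image val) (by
          constructor
          · intro a ha
            obtain ⟨a', ha', rfl⟩ := Finset.mem_image.1 ha
            exact h2.1 a' ha'
          · intro b hb
            obtain ⟨b', hb', rfl⟩ := Finset.mem_image.1 hb
            exact h2.2 b' hb')
        apply h4
        refine (h3.image val).subset ?_
        rintro y' ⟨⟨hy'w, -⟩, hy'A, hy'B⟩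
        obtain ⟨t, rfl⟩ := ZFSet.mem_range.1 hy'w
        refine ⟨t.1, ⟨t.2, ?_, ?_⟩, rfl⟩
        · intro a ha
          exact hy'A _ (Finset.mem_image_of_mem val ha)
        · intro b hb
          exact hy'B _ (Finset.mem_image_of_mem val hb)
    obtain ⟨x, hx⟩ := exists_val hw
    refine ⟨x, ?_⟩
    ext t
    change val t ∈ val x ↔ t ∈ D
    rw [hx]
    constructor
    · intro ht
      obtain ⟨t', ht'⟩ := ZFSet.mem_range.1 ht
      rw [← val_inj ht']
      exact t'.2
    · intro ht
      exact ZFSet.mem_range.2 ⟨⟨t, ht⟩, rfl⟩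
  seg := by
    classical
    intro x y hy x₀ hacc
    by_cases hle : (val x₀).rank ≤ (val y).rank
    · apply ((Gd_iff _).1 (val_gd x)).2.2 (val y) hy (val x₀) hle (val_gd x₀)
      intro A' B' hAB'
      have h1 := hacc (A'.preimage val val_inj.injOn) (B'.preimage val val_inj.injOn) (by
        constructor
        · intro a ha
          exact hAB'.1 _ (Finset.mem_preimage.1 ha)
        · intro b hb
          exact hAB'.2 _ (Finset.mem_preimage.1 hb))
      refine (h1.image val_inj.injOn).mono ?_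
      rintro _ ⟨y', ⟨⟨hy'x, hy'r⟩, hy'A, hy'B⟩, rfl⟩
      refine ⟨⟨hy'x, rkk_le.1 hy'r⟩, ?_, ?_⟩
      · intro a ha
        obtain ⟨a', rfl⟩ := exists_val_of_mem (hAB'.1 a ha)
        exact hy'A a' (Finset.mem_preimage.2 ha)
      · intro b hb hby
        obtain ⟨b', rfl⟩ := exists_val_of_mem hby
        exact hy'B b' (Finset.mem_preimage.2 hb) hby
    · rw [not_le, ZFSet.lt_rank_iff] at hle
      obtain ⟨a, ha, hra⟩ := hle
      obtain ⟨a₀, rfl⟩ := exists_val_of_mem ha
      have h1 := hacc {a₀} ∅ ⟨fun c hc => by rw [Finset.mem_singleton.1 hc]; exact ha, by simp⟩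
      apply h1
      have h2 : {y' ∈ EE x | rkk y' ≤ rkk y} ∩ Box EE {a₀} ∅ = ∅ := by
        ext y'
        simp only [mem_inter_iff, mem_ofPred_eq, mem_empty_iff_false, iff_false, not_and]
        rintro ⟨-, hy'r⟩ hbox
        have h3 : val a₀ ∈ val y' := hbox.1 a₀ (Finset.mem_singleton_self _)
        exact absurd ((ZFSet.rank_lt_of_mem h3).trans_le (rkk_le.1 hy'r)) (not_lt.2 hra)
      rw [h2]
      exact finite_empty

end Pool.Agent.Lib.MP_414e75_gt
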