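import Pool.Agent.Lib.MP_414e75_gt.Abstract

open Set Filter Topology Cardinal

namespace Pool.Agent.Lib.MP_414e75_gt

open Pool.Agent.Lib.MP_37f1e1_gt

variable {X : Type} {E : X → Set X} {rk : X → Om}

/-- The topology induced from the Cantor cube. -/
@[instance_reducible]
noncomputable def topo (E : X → Set X) : TopologicalSpace X :=
  TopologicalSpace.induced (fun x => ((E x).boolIndicator : X → Bool)) inferInstance

lemma topo_nhds (E : X → Set X) (x : X) :
    @nhds X (topo E) x = ⨅ t : X, 𝓟 {y : X | t ∈ E y ↔ t ∈ E x} := by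
  change @nhds X (TopologicalSpace.induced (fun x => ((E x).boolIndicator : X → Bool))
    inferInstance) x = _
  rw [nhds_induced, nhds_pi, Filter.pi, comap_iInf]
  congr 1
  funext t
  rw [nhds_discrete, comap_comap, comap_pure]
  congr 1
  ext y
  change (E y).boolIndicator t = (E x).boolIndicator t ↔ (t ∈ E y ↔ t ∈ E x)
  rw [Set.mem_iff_boolIndicator, Set.mem_iff_boolIndicator]
  cases (E x).boolIndicator t <;> cases (E y).boolIndicator t <;> simp

lemma mem_topo_nhds {E : X → Set X} {x : X} {O : Set X} :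
    O ∈ @nhds X (topo E) x ↔ ∃ A B : Finset X, x ∈ Box E A B ∧ Box E A B ⊆ O := by
  classical
  let _ := topo E
  rw [topo_nhds, (hasBasis_iInf_principal_finite _).mem_iff]
  constructor
  · rintro ⟨F, hF, h⟩
    refine ⟨hF.toFinset.filter (· ∈ E x), hF.toFinset.filter (· ∉ E x), ?_, fun y hy => h ?_⟩
    · exact ⟨fun a ha => (Finset.mem_filter.1 ha).2, fun b hb => (Finset.mem_filter.1 hb).2⟩
    · simp only [mem_iInter]
      intro t ht
      by_cases htx : t ∈ E x
      · exact ⟨fun _ => htx, fun _ => hy.1 t (Finset.mem_filter.2 ⟨hF.mem_toFinset.2 ht, htx⟩)⟩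
      · exact ⟨fun h1 => absurd h1 (hy.2 t (Finset.mem_filter.2 ⟨hF.mem_toFinset.2 ht, htx⟩)),
          fun h1 => absurd h1 htx⟩
  · rintro ⟨A, B, hx, h⟩
    refine ⟨(A ∪ B : Finset X), (A ∪ B).finite_toSet, fun y hy => h ?_⟩
    simp only [mem_iInter] at hy
    refine ⟨fun a ha => ?_, fun b hb => ?_⟩
    · exact (hy a (Finset.mem_coe.2 (Finset.mem_union_left _ ha))).2 (hx.1 a ha)
    · exact fun h1 => hx.2 b hb ((hy b (Finset.mem_coe.2 (Finset.mem_union_right _ hb))).1 h1)

lemma topo_t1 (hG : Good E rk) : @T1Space X (topo E) := by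
  let _ := topo E
  have hind : Topology.IsInducing (fun x => ((E x).boolIndicator : X → Bool)) := ⟨rfl⟩
  have hinj : Function.Injective (fun x => ((E x).boolIndicator : X → Bool)) := by
    intro x y hxy
    apply hG.inj
    ext t
    rw [Set.mem_iff_boolIndicator, Set.mem_iff_boolIndicator]
    simp only at hxy
    rw [hxy]
  have hemb : Topology.IsEmbedding (fun x => ((E x).boolIndicator : X → Bool)) := ⟨hind, hinj⟩
  exact hemb.t1Space

lemma topo_regular (E : X → Set X) : @RegularSpace X (topo E) := by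
  let _ := topo E
  have hind : Topology.IsInducing (fun x => ((E x).boolIndicator : X → Bool)) := ⟨rfl⟩
  exact hind.regularSpace

lemma topo_lindelof (hG : Good E rk) : @LindelofSpace X (topo E) := by
  classical
  let _ := topo E
  refine ⟨?_⟩
  apply isLindelof_of_countable_subcover
  intro ι U hU hcov
  have h1 : ∀ x, ∃ i, x ∈ U i := fun x => mem_iUnion.1 (hcov (mem_univ x))
  obtain ⟨𝓞₀, h2, h3, h4⟩ := countable_subcover hG
    {p : Finset X × Finset X | ∃ i, Box E p.1 p.2 ⊆ U i} (by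
      intro x
      obtain ⟨i, hi⟩ := h1 x
      obtain ⟨A, B, hx, hAB⟩ := mem_topo_nhds.1 ((hU i).mem_nhds hi)
      exact ⟨(A, B), ⟨i, hAB⟩, hx⟩)
  have h5 : ∀ p : 𝓞₀, ∃ i, Box E p.1.1 p.1.2 ⊆ U i := fun p => h2 p.2
  choose f hf using h5
  have : Countable 𝓞₀ := h3.to_subtype
  refine ⟨range f, countable_range f, ?_⟩
  intro x _
  obtain ⟨p, hp, hx⟩ := h4 x
  exact mem_biUnion (mem_range_self ⟨p, hp⟩) (hf ⟨p, hp⟩ hx)

lemma box_open (E : X → Set X) (A B : Finset X) : IsOpen[topo E] (Box E A B) := by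
  let _ := topo E
  rw [isOpen_iff_mem_nhds]
  intro x hx
  exact mem_topo_nhds.2 ⟨A, B, hx, Subset.rfl⟩

/-- The space is not a D-space. -/
theorem not_D (hG : Good E rk) :
    ¬ (∀ (X : Type) [TopologicalSpace X] [T1Space X] [RegularSpace X] [LindelofSpace X],
      ∀ N : X → Set X, (∀ x, IsOpen (N x) ∧ x ∈ N x) →
        ∃ D : Set X, IsClosed D ∧ DiscreteTopology D ∧ (⋃ d ∈ D, N d) = Set.univ) := by
  classical
  intro h
  let _ := topo E
  have := topo_t1 hG
  have := topo_regular E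
  have := topo_lindelof hG
  obtain ⟨D, hDc, hDd, hcov⟩ := h X (fun a => {x | a ∉ E x}) (by
    intro a
    constructor
    · have : {x | a ∉ E x} = Box E ∅ {a} := by
        ext x; simp [Box]
      rw [this]
      exact box_open E ∅ {a}
    · intro ha
      exact lt_irrefl _ (hG.rk_lt a a ha))
  -- `D` is countable
  have hDcount : D.Countable := hDc.isLindelof.countable hDd
  -- `D` has no accumulation points
  have hCD : CD E D := by
    intro x hx
    have h1 : ∃ O ∈ 𝓝 x, (O ∩ D).Finite := by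
      by_cases hxD : x ∈ D
      · have h2 : {(⟨x, hxD⟩ : D)} ∈ 𝓝 (⟨x, hxD⟩ : D) := by
          rw [nhds_discrete]; exact mem_pure.2 rfl
        rw [mem_nhds_subtype] at h2
        obtain ⟨O, hO, h3⟩ := h2
        refine ⟨O, hO, (finite_singleton x).subset ?_⟩
        rintro y ⟨hyO, hyD⟩
        have := h3 (show (⟨y, hyD⟩ : D) ∈ Subtype.val ⁻¹' O from hyO)
        exact congrArg Subtype.val this
      · refine ⟨Dᶜ, hDc.isOpen_compl.mem_nhds hxD, ?_⟩
        rw [compl_inter_self]; exact finite_empty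
    obtain ⟨O, hO, hfin⟩ := h1
    obtain ⟨A, B, hxAB, hAB⟩ := mem_topo_nhds.1 hO
    exact hx A B hxAB (hfin.subset fun y hy => ⟨hAB hy.2, hy.1⟩)
  obtain ⟨x, hx⟩ := hG.full D hDcount hCD
  have : x ∈ ⋃ d ∈ D, {x | d ∉ E x} := by rw [hcov]; exact mem_univ x
  obtain ⟨d, hd, hdx⟩ := mem_iUnion₂.1 this
  exact hdx (by rw [hx]; exact hd)

end Pool.Agent.Lib.MP_414e75_gt
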